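import Pool.Agent.H41.SS.Targets

/-!
Resolution on random k-CNFs, the exact savings (MP_c62aed_lc): row FGT.
-/

set_option autoImplicit false

open Finset Pool.Agent.H97.RK Pool.Agent.H97.RL Pool.Agent.H41.SS

namespace Pool.Agent.H19.SSM

theorem pf_FGT (hSAF : Pool.Agent.H41.SS.T_SAF) (hCLS : Pool.Agent.H41.SS.T_CLS) :
    Pool.Agent.H41.SS.T_FGT := by
  intro n k m F D d w b x y A A₀ W J hG hSt hx hA hw hn
  refine hCLS n k m F D d w W.card hw x y A₀ W ∅ hG hx (fun c hc => absurd hc (notMem_empty c))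
    (fun c hc => absurd hc (notMem_empty c)) (fun c hc => absurd hc (notMem_empty c)) ?_ ?_ hn ?_
  · rw [card_empty]
    exact lt_of_le_of_lt (Nat.zero_le _) hSt.lt
  · exact Nat.le_add_right _ _
  · intro S hS _
    obtain ⟨z, hz1, hz2⟩ := hSAF n k m F D b y A W J hSt S hS.le
    exact ⟨z, fun u hu => hz1 u (union_subset_union_left hA hu), hz2⟩

end Pool.Agent.H19.SSM
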