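import Pool.Agent.H41.SS.Targets
import Pool.Agent.H66.RKS.PX2
import Pool.Agent.H54.RKS.PBN

/-!
Resolution on random k-CNFs, the exact savings (MP_c62aed_lc): row PGX.
-/

set_option autoImplicit false

open Finset Pool.Agent.H97.RK Pool.Agent.H97.RL Pool.Agent.H41.SS

namespace Pool.Agent.H19.SSM

theorem pf_PGX : T_PGX := by
  classical
  intro n k m D d w hn hdw x
  set N : ℝ := (2 * n) ^ k with hN
  have hn0 : (0 : ℝ) < n := by exact_mod_cast hn
  have hNpos : 0 < N := by positivity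
  have hde : (0 : ℝ) ≤ (n : ℝ) - d + w := by
    have h1 : ((d + w : ℕ) : ℝ) ≤ n := by exact_mod_cast hdw
    rw [Nat.cast_add] at h1
    have h2 : (0 : ℝ) ≤ w := Nat.cast_nonneg _
    linarith
  obtain ⟨P, hP⟩ : ∃ P : Finset (Fin n) × Finset (Fin n) → (Fin k → Fin n × Bool) → Prop,
      ∀ a h, P a h ↔ (∀ i, (h i).1 ∈ (a.1 ∪ a.2)ᶜ ∪ a.2) ∧
        ∀ i, (h i).1 ∈ (a.1 ∪ a.2)ᶜ → x (h i).1 ≠ (h i).2 :=
    ⟨fun a h => (∀ i, (h i).1 ∈ (a.1 ∪ a.2)ᶜ ∪ a.2) ∧
        ∀ i, (h i).1 ∈ (a.1 ∪ a.2)ᶜ → x (h i).1 ≠ (h i).2, fun _ _ => Iff.rfl⟩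
  let I : Finset (Finset (Fin n) × Finset (Fin n)) :=
    (powersetCard d univ ×ˢ powersetCard w univ).filter fun a => Disjoint a.1 a.2
  let S : Finset (Fin n) × Finset (Fin n) → Finset (Fml n k m) := fun a =>
    univ.filter fun F => D ≤ (univ.filter fun c => P a (F c)).card
  have hsub : (univ.filter fun F : Fml n k m => ¬ Gd F D d w x) ⊆ I.biUnion S := by
    intro F hF
    rw [mem_filter] at hF
    have hX := hF.2
    unfold Gd at hX
    push Not at hX
    obtain ⟨T0, W0, hdis, hWe, hTW, ht⟩ := hX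
    have hc1 : d ≤ (T0 ∪ W0)ᶜ.card := by
      rw [card_compl, Fintype.card_fin, card_union_of_disjoint hdis]
      omega
    obtain ⟨Z, hZ, hZd⟩ := exists_subset_card_eq hc1
    have hW0Z : W0 ⊆ Zᶜ := by
      intro v hv
      rw [mem_compl]
      intro hvZ
      exact mem_compl.1 (hZ hvZ) (mem_union_right _ hv)
    have hc2 : w ≤ Zᶜ.card := by
      rw [card_compl, Fintype.card_fin, hZd]
      omega
    obtain ⟨W', hW1, hW2, hW3⟩ := exists_subsuperset_card_eq hW0Z hWe hc2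
    have hdisj : Disjoint Z W' := by
      rw [disjoint_left]
      intro v hv hv'
      exact mem_compl.1 (hW2 hv') hv
    rw [mem_biUnion]
    refine ⟨(Z, W'), ?_, ?_⟩
    · rw [mem_filter, mem_product, mem_powersetCard, mem_powersetCard]
      exact ⟨⟨⟨subset_univ _, hZd⟩, ⟨subset_univ _, hW3⟩⟩, hdisj⟩
    · rw [mem_filter]
      refine ⟨mem_univ _, ht.trans (card_le_card ?_)⟩
      intro c hc
      rw [mem_filter] at hc ⊢
      refine ⟨mem_univ _, (hP _ _).2 ⟨?_, ?_⟩⟩
      · intro i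
        have h1 := hc.2.1 i
        have h2 : (F c i).1 ∉ Z := fun h => mem_compl.1 (hZ h) h1
        change (F c i).1 ∈ (Z ∪ W')ᶜ ∪ W'
        by_cases h3 : (F c i).1 ∈ W'
        · exact mem_union_right _ h3
        · refine mem_union_left _ ?_
          rw [mem_compl, mem_union]
          exact fun h => h.elim h2 h3
      · intro i hi
        have hi' : (F c i).1 ∉ Z ∪ W' := mem_compl.1 hi
        have h1 := hc.2.1 i
        have h2 : (F c i).1 ∉ W0 := fun h => hi' (mem_union_right _ (hW1 h))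
        exact hc.2.2 i ((mem_union.1 h1).resolve_right h2)
  have hb : ∀ a ∈ I, ((S a).card : ℝ) ≤
      m.choose D * (((n : ℝ) - d + w) / (2 * n)) ^ (k * D) * N ^ m := by
    intro a ha
    have ha' := mem_filter.1 ha
    have ha1 := mem_product.1 ha'.1
    have had := (mem_powersetCard.1 ha1.1).2
    have haw := (mem_powersetCard.1 ha1.2).2
    have h1 : ((S a).card : ℝ) * N ^ D ≤ m.choose D * ((univ.filter (P a)).card : ℝ) ^ D * N ^ m :=
      Pool.Agent.H54.RKS.pf_PBN n k m D (P a)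
    have h2 : ((univ.filter (P a)).card : ℝ) ≤ ((n : ℝ) - d + w) ^ k := by
      have h3 : (univ.filter (P a)).card ≤ (((a.1 ∪ a.2)ᶜ).card + 2 * a.2.card) ^ k := by
        refine (card_le_card ?_).trans (Pool.Agent.H66.RKS.card_cl x ((a.1 ∪ a.2)ᶜ) a.2)
        intro h hh
        rw [mem_filter] at hh ⊢
        exact ⟨mem_univ _, (hP _ _).1 hh.2⟩
      have h4 : (((((a.1 ∪ a.2)ᶜ).card + 2 * a.2.card : ℕ)) : ℝ) ≤ (n : ℝ) - d + w := by
        have h5 : ((a.1 ∪ a.2)ᶜ).card + 2 * a.2.card + d ≤ n + w := by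
          rw [card_compl, Fintype.card_fin, card_union_of_disjoint ha'.2, had, haw]
          omega
        have h6 : ((((a.1 ∪ a.2)ᶜ).card + 2 * a.2.card + d : ℕ) : ℝ) ≤ ((n + w : ℕ) : ℝ) := by
          exact_mod_cast h5
        rw [Nat.cast_add _ d, Nat.cast_add n w] at h6
        linarith
      calc ((univ.filter (P a)).card : ℝ)
          ≤ (((((a.1 ∪ a.2)ᶜ).card + 2 * a.2.card) ^ k : ℕ) : ℝ) := by exact_mod_cast h3
        _ = ((((a.1 ∪ a.2)ᶜ).card + 2 * a.2.card : ℕ) : ℝ) ^ k := by push_cast; ring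
        _ ≤ ((n : ℝ) - d + w) ^ k := pow_le_pow_left₀ (Nat.cast_nonneg _) h4 k
    have h3 : (((n : ℝ) - d + w) / (2 * n)) ^ (k * D) * N ^ D = (((n : ℝ) - d + w) ^ k) ^ D := by
      rw [hN, div_pow, pow_mul, pow_mul, div_mul_cancel₀]
      positivity
    have h4 : ((S a).card : ℝ) * N ^ D ≤
        (m.choose D * (((n : ℝ) - d + w) / (2 * n)) ^ (k * D) * N ^ m) * N ^ D := by
      calc ((S a).card : ℝ) * N ^ D
          ≤ m.choose D * ((univ.filter (P a)).card : ℝ) ^ D * N ^ m := h1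
        _ ≤ m.choose D * (((n : ℝ) - d + w) ^ k) ^ D * N ^ m := by
            gcongr
        _ = (m.choose D * (((n : ℝ) - d + w) / (2 * n)) ^ (k * D) * N ^ m) * N ^ D := by
            rw [← h3]; ring
    exact le_of_mul_le_mul_right h4 (by positivity)
  have hI : (I.card : ℝ) ≤ (n.choose d : ℝ) * n.choose w := by
    have h1 : I.card ≤ (powersetCard d (univ : Finset (Fin n)) ×ˢ
        powersetCard w (univ : Finset (Fin n))).card := card_filter_le _ _
    rw [card_product, card_powersetCard, card_powersetCard, card_univ, Fintype.card_fin] at h1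
    exact_mod_cast h1
  calc ((univ.filter fun F : Fml n k m => ¬ Gd F D d w x).card : ℝ)
      ≤ ((I.biUnion S).card : ℝ) := by exact_mod_cast card_le_card hsub
    _ ≤ ((∑ a ∈ I, (S a).card : ℕ) : ℝ) := by exact_mod_cast card_biUnion_le
    _ = ∑ a ∈ I, ((S a).card : ℝ) := by push_cast; rfl
    _ ≤ ∑ _a ∈ I, m.choose D * (((n : ℝ) - d + w) / (2 * n)) ^ (k * D) * N ^ m := sum_le_sum hb
    _ = I.card * (m.choose D * (((n : ℝ) - d + w) / (2 * n)) ^ (k * D) * N ^ m) := by
        rw [sum_const, nsmul_eq_mul]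
    _ ≤ ((n.choose d : ℝ) * n.choose w) *
          (m.choose D * (((n : ℝ) - d + w) / (2 * n)) ^ (k * D) * N ^ m) := by
        gcongr
    _ = (n.choose d : ℝ) * n.choose w * m.choose D *
        (((n : ℝ) - d + w) / (2 * n)) ^ (k * D) * N ^ m := by ring

end Pool.Agent.H19.SSM
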