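import Pool.Agent.H41.SS.Targets

/-!
Resolution on random k-CNFs, the exact savings (MP_c62aed_lc): row TSZ.
-/

set_option autoImplicit false

open Finset Pool.Agent.H97.RK Pool.Agent.H97.RL Pool.Agent.H41.SS

namespace Pool.Agent.H19.SSM

theorem pf_TSZ (hTRE : T_TRE) (hINI : T_INI) (hGOO : T_GOO) (hTCI : T_TCI) : T_TSZ := by
  classical
  intro n k m F D d w u hD hDw huw hEx hbad S r line rule href U hOnce hU
  obtain ⟨hr, hr0, hcor⟩ := href
  obtain ⟨hGoo, hcount⟩ := hGOO n k m F D d w u (by omega) hbad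
  obtain ⟨an, ls, hT⟩ := hTRE n k m F S r line rule ⟨hr, hr0, hcor⟩ U hOnce
  have hPr : (r ∈ U ∨ r = r) ∧ AtS F D line r := by
    refine ⟨Or.inr rfl, fun _ => false, ∅, ∅, ?_, ?_⟩
    · have h0 : vs (line r) = ∅ := by
        rw [hr0]
        rfl
      rw [h0]
      exact hINI n k m F D hD hEx _
    · rw [hr0]
      intro l hl
      exact absurd hl (notMem_empty l)
  have hex : ∃ l, (l ∈ U ∨ l = r) ∧ AtS F D line l := ⟨r, hPr⟩
  have hl := Nat.find_spec hex
  have hmin : ∀ l', l' < Nat.find hex → ¬ ((l' ∈ U ∨ l' = r) ∧ AtS F D line l') :=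
    fun l' h => Nat.find_min hex h
  have hlr : Nat.find hex ≤ r := Nat.find_min' hex hPr
  generalize Nat.find hex = l at hl hmin hlr
  obtain ⟨hlU, y, W, J, hSt, hF⟩ := hl
  have hAu : (vs (line l)).card ≤ u := by
    rcases hlU with h | h
    · exact hU l h
    · rw [h, hr0]
      exact Nat.zero_le _
  obtain ⟨han, -⟩ := hT.base l hlU
  have hrule : rule l ≠ Rule.ax := by
    intro hax
    have h1 := hcor l (by omega)
    rw [hax] at h1
    obtain ⟨c, hc⟩ := h1
    have hmem : ∀ i, F c i ∈ line l := fun i => hc (mem_image_of_mem _ (mem_univ i))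
    have h2 := hSt.inv {c} (by rw [card_singleton]; exact hD) (by
      intro c' hc' i _
      rw [mem_singleton] at hc'
      subst hc'
      exact hF _ (hmem i))
    have h3 : VS F {c} \ (vs (line l) ∪ W) = ∅ := by
      rw [sdiff_eq_empty_iff_subset]
      intro v hv
      unfold VS vF at hv
      rw [singleton_biUnion, mem_image] at hv
      obtain ⟨i, -, rfl⟩ := hv
      exact mem_union_left _ (mem_image_of_mem Prod.fst (hmem i))
    rw [h3, card_singleton, card_empty] at h2
    omega
  rcases hTCI n k m F D d w u hDw hGoo huw S r line rule ⟨hr, hr0, hcor⟩ U an ls hT hU l l y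
    (vs (line l)) W J le_rfl hlr hrule han hSt (Subset.refl _) hF (by omega) with h | h
  · obtain ⟨l', hl', hl'U, hAt⟩ := h
    exact absurd ⟨Or.inl hl'U, hAt⟩ (hmin l' hl')
  · have h1 := hcount (vs (line l) \ W) y ((card_le_card sdiff_subset).trans hAu)
    have h2 : NL S rule an ls l (ls l) ≤ S := by
      unfold NL
      refine (card_filter_le _ _).trans ?_
      rw [card_range]
    have h3 : 2 ^ (w + d + 2 * D + u + 2) = 2 ^ (w + d + 2 * D + 1) * 2 ^ (u + 1) := by
      rw [← pow_add]
      congr 1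
      omega
    calc 2 ^ n ≤ _ := h1
      _ ≤ (S * 2 ^ (w + d + 2 * D + 1)) * 2 ^ (u + 1) :=
          Nat.mul_le_mul_right _ (h.trans (Nat.mul_le_mul_right _ h2))
      _ = S * 2 ^ (w + d + 2 * D + u + 2) := by rw [h3, mul_assoc]

end Pool.Agent.H19.SSM
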